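import Pool.Agent.Y865.KS.RP
import Pool.Agent.Y865.SP.Asm

/-!
Arrays of mirror images of a plane graph: folding steps.
-/

set_option autoImplicit false
set_option linter.unusedSectionVars false

namespace Pool.Agent.Y865.KS

open Polynomial Set Pool.Agent.H207R2.BL

/-- restriction of a mirror symmetric drawing to a set of vertices which is determined by the first
coordinate -/
theorem mirror_restrict {V W : Type} (G : SimpleGraph V) (f : V → ℝ × ℝ) (γ : V → V → ℝ → ℝ × ℝ)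
    (h : MirrorDrawing G f γ) (i : W → V) (hi : Function.Injective i)
    (hT : ∀ u v, (∃ w, i w = v) → (f u).1 = (f v).1 → ∃ w, i w = u) :
    MirrorDrawing (G.comap i) (fun w => f (i w)) (fun u v => γ (i u) (i v)) := by
  obtain ⟨hd, ⟨σ, hσ, hadj⟩, hup, hno⟩ := h
  have hex : ∀ w, ∃ w', i w' = σ (i w) := by
    intro w
    refine hT (σ (i w)) (i w) ⟨w, rfl⟩ ?_
    rw [hσ]
  choose τ hτ using hex
  refine ⟨⟨hd.1.comp hi, ?_, ?_⟩, ⟨τ, ?_, ?_⟩, ?_, ?_⟩
  · intro u v huv
    obtain ⟨h1, h2, h3, h4, h5⟩ := hd.2.1 _ _ huv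
    exact ⟨h1, h2, h3, h4, fun t ht w => h5 t ht _⟩
  · intro u v u' v' huv huv' hne
    refine hd.2.2 _ _ _ _ huv huv' ?_
    intro h
    apply hne
    exact Sym2.map.injective hi (a₁ := s(u, v)) (a₂ := s(u', v')) (by simpa using h)
  · intro w
    rw [hτ, hσ]
  · intro u v huv
    change G.Adj (i (τ u)) (i (τ v))
    rw [hτ, hτ]
    exact hadj _ _ huv
  · intro u v huv hu hv
    exact hup _ _ huv hu hv
  · intro u v huv hu
    exact hno _ _ huv hu

/-- one folding step -/
theorem step {V : Type} [Finite V] (G : SimpleGraph V) (g : V → ℝ × ℝ)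
    (δ : V → V → ℝ → ℝ × ℝ) (S L T : Set V) (hLS : L ⊆ S)
    (hT : ∀ u v, v ∈ T → (g u).1 = (g v).1 → u ∈ T)
    (hM : MirrorDrawing (G.induce S) (fun v => g v.1) (fun u v => δ u.1 v.1))
    (hL : ∀ v ∈ S, 0 ≤ (g v).2 → v ∈ L) (q : ℝ) (hq : 4 ≤ q)
    (hne : (chr (G.induce (L ∩ T))).eval q ≠ 0) :
    0 < (chr (G.induce (S ∩ T))).eval q := by
  classical
  -- the host graph
  let i : (S ∩ T : Set V) → S := fun v => ⟨v.1, v.2.1⟩
  have hi : Function.Injective i := by
    intro u v huv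
    exact Subtype.ext (congrArg (fun x : S => x.1) huv)
  have hH := mirror_restrict (G.induce S) _ _ hM i hi (by
    rintro u v ⟨w, rfl⟩ huv
    exact ⟨⟨u.1, u.2, hT u.1 w.1 w.2.2 huv⟩, rfl⟩)
  have hG' : (G.induce S).comap i = G.induce (S ∩ T) := by
    ext u v
    exact Iff.rfl
  rw [hG'] at hH
  obtain ⟨σ, hσ, hadj⟩ := hH.mirror
  -- the subgraph
  let D : Set (S ∩ T : Set V) := {v | v.1 ∈ L}
  have hiso : (chr ((G.induce (S ∩ T)).induce D)) = chr (G.induce (L ∩ T)) := by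
    apply chr_iso
    intro p hp
    let e : (G.induce (S ∩ T)).induce D ≃g G.induce (L ∩ T) :=
      { toFun := fun v => ⟨v.1.1, v.2, v.1.2.2⟩
        invFun := fun v => ⟨⟨v.1, hLS v.2.1, v.2.2⟩, v.2.1⟩
        left_inv := fun v => rfl
        right_inv := fun v => rfl
        map_rel_iff' := by
          intro a b
          exact Iff.rfl }
    exact hp.of_iso e
  have hKle : Pool.Agent.Y865.SP.inside (G.induce (S ∩ T)) D ≤ G.induce (S ∩ T) :=
    fun x y h => h.2.2
  have hK : (chr (Pool.Agent.Y865.SP.inside (G.induce (S ∩ T)) D)).eval q ≠ 0 := by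
    rw [Pool.Agent.Y865.SP.chr_inside, eval_mul, eval_pow, eval_X, hiso]
    exact mul_ne_zero hne (pow_ne_zero _ (by linarith))
  have h1 := (fold_ineq (G.induce (S ∩ T)) _ _ hH σ hσ hadj _ hKle q hq hK).1
  have hσσ : ∀ v, σ (σ v) = v := by
    intro v
    apply hH.drawing.1
    change g (i (σ (σ v))).1 = g (i v).1
    rw [hσ, hσ]
    simp
  have hfu : fu (fun v : (S ∩ T : Set V) => (g (i v).1).2) σ
      (Pool.Agent.Y865.SP.inside (G.induce (S ∩ T)) D) = G.induce (S ∩ T) := by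
    ext x y
    constructor
    · rintro (⟨_, _, h3⟩ | ⟨_, _, h3⟩)
      · exact h3.2.2
      · have := hadj _ _ h3.2.2
        rwa [hσσ, hσσ] at this
    · intro hxy
      have hup : ∀ u v : (S ∩ T : Set V), (G.induce (S ∩ T)).Adj u v → 0 ≤ (g u.1).2 →
          0 ≤ (g v.1).2 → (Pool.Agent.Y865.SP.inside (G.induce (S ∩ T)) D).Adj u v :=
        fun u v huv hu hv => ⟨hL u.1 u.2.1 hu, hL v.1 v.2.1 hv, huv⟩
      have hneg : ∀ v : (S ∩ T : Set V), (g (σ v).1).2 = -(g v.1).2 := by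
        intro v
        exact congrArg Prod.snd (hσ v)
      have hdown : ∀ u v : (S ∩ T : Set V), (G.induce (S ∩ T)).Adj u v → (g u.1).2 ≤ 0 →
          (g v.1).2 ≤ 0 → (Pool.Agent.Y865.SP.inside (G.induce (S ∩ T)) D).Adj (σ u) (σ v) := by
        intro u v huv hu hv
        refine hup _ _ (hadj _ _ huv) ?_ ?_
        · rw [hneg]
          linarith
        · rw [hneg]
          linarith
      rcases lt_trichotomy (g x.1).2 0 with h4 | h4 | h4
      · have h5 : (g y.1).2 ≤ 0 := by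
          by_contra h6
          push Not at h6
          exact absurd (hH.noCross y x hxy.symm h6) (not_le.2 h4)
        exact Or.inr ⟨h4.le, h5, hdown x y hxy h4.le h5⟩
      · rcases le_total 0 (g y.1).2 with h5 | h5
        · exact Or.inl ⟨h4.ge, h5, hup x y hxy h4.ge h5⟩
        · exact Or.inr ⟨h4.le, h5, hdown x y hxy h4.le h5⟩
      · have h5 : 0 ≤ (g y.1).2 := hH.noCross x y hxy h4
        exact Or.inl ⟨h4.le, h5, hup x y hxy h4.le h5⟩
  rw [hfu] at h1
  exact h1

/-- a row of mirror images -/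
theorem row {V : Type} [Finite V] (G : SimpleGraph V) (x y : V → ℝ) (T : Set V)
    (hT : ∀ u v, v ∈ T → y u = y v → u ∈ T) (δ : ℕ → V → V → ℝ → ℝ × ℝ) (N : ℕ)
    (hM : ∀ a : ℕ, 1 ≤ a → a ≤ N → MirrorDrawing (G.induce {v | x v ≤ 2 * a})
      (fun v => (y v.1, a - x v.1)) (fun u v => δ a u.1 v.1)) (q : ℝ) (hq : 4 ≤ q)
    (hne : (chr (G.induce ({v | x v ≤ 1} ∩ T))).eval q ≠ 0) :
    ∀ a : ℕ, 1 ≤ a → a ≤ N → 0 < (chr (G.induce ({v | x v ≤ 2 * a} ∩ T))).eval q := by
  intro a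
  induction a using Nat.strong_induction_on with
  | _ a ih =>
    intro h1 h2
    rcases Nat.lt_or_ge 1 a with h3 | h3
    · -- `a ≥ 2`
      obtain ⟨b, hb1, hb2, hb3⟩ : ∃ b, 1 ≤ b ∧ b < a ∧ a ≤ 2 * b :=
        ⟨(a + 1) / 2, by omega, by omega, by omega⟩
      have h4 := ih b hb2 hb1 (by omega)
      have hb3' : (a : ℝ) ≤ 2 * b := by exact_mod_cast hb3
      have hb2' : (b : ℝ) ≤ a := by exact_mod_cast hb2.le
      refine step G (fun v => (y v, a - x v)) (δ a) {v | x v ≤ 2 * a} {v | x v ≤ 2 * b} T ?_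
        (fun u v hv huv => hT u v hv huv) (hM a h1 h2) ?_ q hq (ne_of_gt h4)
      · intro v hv
        have hv' : x v ≤ 2 * b := hv
        change x v ≤ 2 * a
        linarith
      · intro v hv hv0
        have hv' : 0 ≤ a - x v := hv0
        change x v ≤ 2 * b
        linarith
    · have ha : a = 1 := by omega
      subst ha
      refine step G (fun v => (y v, (1 : ℕ) - x v)) (δ 1) {v | x v ≤ 2 * (1 : ℕ)} {v | x v ≤ 1} T
        ?_ (fun u v hv huv => hT u v hv huv) (hM 1 h1 h2) ?_ q hq hne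
      · intro v hv
        have hv' : x v ≤ 1 := hv
        change x v ≤ 2 * ((1 : ℕ) : ℝ)
        push_cast
        linarith
      · intro v hv hv0
        have hv' : 0 ≤ ((1 : ℕ) : ℝ) - x v := hv0
        change x v ≤ 1
        push_cast at hv'
        linarith

end Pool.Agent.Y865.KS
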