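import Pool.Agent.H207R2.BL.Mirror
import Pool.Agent.H207R2.BL.Woodall

/-!
Reflection positivity for subgraphs of a mirror symmetric plane graph.
-/

set_option autoImplicit false
set_option linter.unusedSectionVars false

namespace Pool.Agent.Y865.KS

open Polynomial Set Pool.Agent.H207R2.BL

/-- the part of `K` where `s ≤ 0`, together with its mirror image -/
def fl {V : Type} (s : V → ℝ) (σ : V → V) (K : SimpleGraph V) : SimpleGraph V where
  Adj x y := (s x ≤ 0 ∧ s y ≤ 0 ∧ K.Adj x y) ∨ (0 ≤ s x ∧ 0 ≤ s y ∧ K.Adj (σ x) (σ y))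
  symm := ⟨by
    rintro x y (⟨h1, h2, h3⟩ | ⟨h1, h2, h3⟩)
    · exact Or.inl ⟨h2, h1, h3.symm⟩
    · exact Or.inr ⟨h2, h1, h3.symm⟩⟩
  loopless := ⟨by
    rintro x (⟨_, _, h3⟩ | ⟨_, _, h3⟩)
    · exact K.loopless.irrefl x h3
    · exact K.loopless.irrefl _ h3⟩

/-- the part of `K` where `s ≥ 0`, together with its mirror image -/
def fu {V : Type} (s : V → ℝ) (σ : V → V) (K : SimpleGraph V) : SimpleGraph V where
  Adj x y := (0 ≤ s x ∧ 0 ≤ s y ∧ K.Adj x y) ∨ (s x ≤ 0 ∧ s y ≤ 0 ∧ K.Adj (σ x) (σ y))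
  symm := ⟨by
    rintro x y (⟨h1, h2, h3⟩ | ⟨h1, h2, h3⟩)
    · exact Or.inl ⟨h2, h1, h3.symm⟩
    · exact Or.inr ⟨h2, h1, h3.symm⟩⟩
  loopless := ⟨by
    rintro x (⟨_, _, h3⟩ | ⟨_, _, h3⟩)
    · exact K.loopless.irrefl x h3
    · exact K.loopless.irrefl _ h3⟩

theorem crossless_mono {V : Type} {n : ℕ} {N M : SimpleGraph (V ⊕ Fin n)} (h : N ≤ M)
    (hM : Crossless M) : Crossless N := by
  intro i j k l hij hjk hkl p p'
  obtain ⟨v, hv1, hv2⟩ := hM i j k l hij hjk hkl (p.mapLe h) (p'.mapLe h)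
  rw [SimpleGraph.Walk.support_mapLe_eq_support] at hv1 hv2
  exact ⟨v, hv1, hv2⟩

theorem glue_comm_chrom {U : Type} [Finite U] {n : ℕ} (N M : SimpleGraph (U ⊕ Fin n)) (p : ℝ[X])
    (h : IsChrom (glue N M) p) : IsChrom (glue M N) p := by
  intro k
  have : Fintype U := Fintype.ofFinite U
  classical
  rw [h k, card_glue, card_glue]
  exact Finset.sum_congr rfl (fun c _ => mul_comm _ _)

/-- Cauchy-Schwarz for two crossless halves. -/
theorem two_ineq {U : Type} [Finite U] {n : ℕ} (N M : SimpleGraph (U ⊕ Fin n))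
    (hN : Crossless N) (hM : Crossless M) (a b c : ℝ[X]) (ha : IsChrom (glue N N) a)
    (hb : IsChrom (glue N M) b) (hc : IsChrom (glue M M) c) (q : ℝ) (hq : 4 ≤ q) :
    0 ≤ a.eval q ∧ 0 ≤ c.eval q ∧ b.eval q ^ 2 ≤ a.eval q * c.eval q := by
  have hb' : IsChrom (glue M N) b := glue_comm_chrom N M b hb
  let NN : Bool → SimpleGraph (U ⊕ Fin n) := fun x =>
    match x with
    | true => N
    | false => M
  have hNN : ∀ x, Crossless (NN x) := by
    intro x
    cases x
    · exact hM
    · exact hN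
  let P : Bool → Bool → ℝ[X] := fun x y =>
    match x, y with
    | true, true => a
    | true, false => b
    | false, true => b
    | false, false => c
  have hP : ∀ x y, IsChrom (glue (NN x) (NN y)) (P x y) := by
    intro x y
    cases x <;> cases y
    · exact hc
    · exact hb'
    · exact hb
    · exact ha
  have key : ∀ x y : ℝ, 0 ≤ x * x * a.eval q + x * y * b.eval q + (y * x * b.eval q +
      y * y * c.eval q) := by
    intro x y
    have := psd (fun _ : Bool => U) NN hNN P hP q hq (fun z => if z then x else y)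
    simp only [Fintype.sum_bool, P, if_true, Bool.false_eq_true, if_false] at this
    linarith
  have h1 := key 1 0
  have h2 := key 0 1
  have h3 : discrim (a.eval q) (2 * b.eval q) (c.eval q) ≤ 0 := by
    apply discrim_le_zero
    intro x
    have := key x 1
    nlinarith
  unfold discrim at h3
  refine ⟨by linarith, by linarith, by nlinarith⟩

theorem halves {V : Type} [Finite V] (G : SimpleGraph V) (f : V → ℝ × ℝ)
    (γ : V → V → ℝ → ℝ × ℝ) (h : MirrorDrawing G f γ) (σ : V → V)
    (hσ : ∀ v, f (σ v) = ((f v).1, -(f v).2)) (hadj : ∀ u v, G.Adj u v → G.Adj (σ u) (σ v)) :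
    ∃ (U : Type) (_ : Finite U) (n : ℕ) (φ : U ⊕ Fin n → V), (∀ a, 0 ≤ (f (φ a)).2) ∧
      Crossless (G.comap φ) ∧
      ∀ (K : SimpleGraph V), K ≤ G → ∀ p, IsChrom K p →
        IsChrom (glue (K.comap φ) (K.comap (σ ∘ φ))) p := by
  classical
  obtain ⟨hd, -, hup, hno⟩ := h
  have hf := hd.1
  have hσσ : ∀ v, σ (σ v) = v := by
    intro v
    apply hf
    rw [hσ, hσ]
    simp
  have hσinj : Function.Injective σ := fun a b hab => by
    rw [← hσσ a, ← hσσ b, hab]
  -- order the vertices on the axis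
  let Bv := {v : V // (f v).2 = 0}
  have : Finite Bv := inferInstance
  have : Fintype Bv := Fintype.ofFinite Bv
  have hinj : Function.Injective (fun v : Bv => (f v.1).1) := by
    intro a b hab
    apply Subtype.ext
    apply hf
    exact Prod.ext hab (by rw [a.2, b.2])
  let _ : LinearOrder Bv := LinearOrder.lift' (fun v : Bv => (f v.1).1) hinj
  set n := Nat.card Bv with hn
  have hcard : Fintype.card Bv = n := by rw [hn, Nat.card_eq_fintype_card]
  let e : Fin n ≃o Bv := Fintype.orderIsoFinOfCardEq Bv hcard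
  have he : ∀ i j : Fin n, i < j → (f (e i).1).1 < (f (e j).1).1 := by
    intro i j hij
    exact e.lt_iff_lt.2 hij
  have hσe : ∀ i : Fin n, σ (e i).1 = (e i).1 := by
    intro i
    apply hf
    rw [hσ]
    exact Prod.ext rfl (by rw [(e i).2]; simp)
  let U := {v : V // 0 < (f v).2}
  let φ : U ⊕ Fin n → V := Sum.elim (fun u => u.1) (fun i => (e i).1)
  have hφinj : Function.Injective φ := by
    rintro (a | a) (b | b) hab
    · exact congrArg Sum.inl (Subtype.ext hab)
    · exfalso
      have h1 : a.1 = (e b).1 := hab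
      have h2 := a.2
      rw [h1, (e b).2] at h2
      exact lt_irrefl _ h2
    · exfalso
      have h1 : (e a).1 = b.1 := hab
      have h2 := b.2
      rw [← h1, (e a).2] at h2
      exact lt_irrefl _ h2
    · exact congrArg Sum.inr (e.injective (Subtype.ext hab))
  have hφ0 : ∀ a, 0 ≤ (f (φ a)).2 := by
    rintro (a | a)
    · exact a.2.le
    · exact (e a).2.ge
  let N : SimpleGraph (U ⊕ Fin n) := G.comap φ
  have hNd : IsDrawing N (fun a => f (φ a)) (fun a b => γ (φ a) (φ b)) := by
    refine ⟨hf.comp hφinj, ?_, ?_⟩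
    · intro u v huv
      obtain ⟨h1, h2, h3, h4, h5⟩ := hd.2.1 _ _ huv
      exact ⟨h1, h2, h3, h4, fun t ht w => h5 t ht _⟩
    · intro u v u' v' huv huv' hne
      refine hd.2.2 _ _ _ _ huv huv' ?_
      intro h
      apply hne
      have := Sym2.map.injective hφinj (a₁ := s(u, v)) (a₂ := s(u', v')) (by simpa using h)
      exact this
  have hNc : Crossless N := by
    refine crossless_of_drawing N _ _ hNd hφ0 ?_ ?_ ?_
    · intro u v huv
      exact hup _ _ huv (hφ0 u) (hφ0 v)
    · intro i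
      exact (e i).2
    · intro i j hij
      exact he i j hij
  refine ⟨U, inferInstance, n, φ, hφ0, hNc, ?_⟩
  intro K hK p hp
  let Φ : (U ⊕ U) ⊕ Fin n → V :=
    Sum.elim (Sum.elim (fun u => u.1) (fun u => σ u.1)) (fun i => (e i).1)
  have hσneg : ∀ u : U, (f (σ u.1)).2 < 0 := by
    intro u
    rw [hσ]
    have := u.2
    simpa using this
  have hΦ : Function.Bijective Φ := by
    constructor
    · rintro ((a | a) | a) ((b | b) | b) hab
      · exact congrArg (fun x => Sum.inl (Sum.inl x)) (Subtype.ext hab)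
      · exfalso
        have h1 : a.1 = σ b.1 := hab
        have h2 := hσneg b
        rw [← h1] at h2
        exact lt_asymm a.2 h2
      · exfalso
        have h1 : a.1 = (e b).1 := hab
        have h2 := a.2
        rw [h1, (e b).2] at h2
        exact lt_irrefl _ h2
      · exfalso
        have h1 : σ a.1 = b.1 := hab
        have h2 := hσneg a
        rw [h1] at h2
        exact lt_asymm b.2 h2
      · exact congrArg (fun x => Sum.inl (Sum.inr x)) (Subtype.ext (hσinj hab))
      · exfalso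
        have h1 : σ a.1 = (e b).1 := hab
        have h2 := hσneg a
        rw [h1, (e b).2] at h2
        exact lt_irrefl _ h2
      · exfalso
        have h1 : (e a).1 = b.1 := hab
        have h2 := b.2
        rw [← h1, (e a).2] at h2
        exact lt_irrefl _ h2
      · exfalso
        have h1 : (e a).1 = σ b.1 := hab
        have h2 := hσneg b
        rw [← h1, (e a).2] at h2
        exact lt_irrefl _ h2
      · exact congrArg Sum.inr (e.injective (Subtype.ext hab))
    · intro v
      rcases lt_trichotomy 0 (f v).2 with h1 | h1 | h1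
      · exact ⟨Sum.inl (Sum.inl ⟨v, h1⟩), rfl⟩
      · refine ⟨Sum.inr (e.symm ⟨v, h1.symm⟩), ?_⟩
        change (e (e.symm ⟨v, h1.symm⟩)).1 = v
        rw [e.apply_symm_apply]
      · refine ⟨Sum.inl (Sum.inr ⟨σ v, ?_⟩), ?_⟩
        · rw [hσ]
          simpa using h1
        · exact hσσ v
  have hΦ1 : ∀ a : U ⊕ Fin n, Φ (Sum.map Sum.inl id a) = φ a := by
    rintro (a | a) <;> rfl
  have hΦ2 : ∀ a : U ⊕ Fin n, Φ (Sum.map Sum.inr id a) = σ (φ a) := by
    rintro (a | a)
    · rfl
    · exact (hσe a).symm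
  have i1 : Function.Injective (Sum.map Sum.inl id : U ⊕ Fin n → (U ⊕ U) ⊕ Fin n) :=
    Sum.map_injective.2 ⟨Sum.inl_injective, Function.injective_id⟩
  have i2 : Function.Injective (Sum.map Sum.inr id : U ⊕ Fin n → (U ⊕ U) ⊕ Fin n) :=
    Sum.map_injective.2 ⟨Sum.inr_injective, Function.injective_id⟩
  have first : ∀ a b : U ⊕ Fin n, K.Adj (Φ (Sum.map Sum.inl id a)) (Φ (Sum.map Sum.inl id b)) →
      (glue (K.comap φ) (K.comap (σ ∘ φ))).Adj (Sum.map Sum.inl id a) (Sum.map Sum.inl id b) := by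
    intro a b h
    rw [hΦ1, hΦ1] at h
    exact Or.inl ⟨i1.ne (fun hab => h.ne (by rw [hab])), a, b, h, rfl, rfl⟩
  have second : ∀ a b : U ⊕ Fin n, K.Adj (Φ (Sum.map Sum.inr id a)) (Φ (Sum.map Sum.inr id b)) →
      (glue (K.comap φ) (K.comap (σ ∘ φ))).Adj (Sum.map Sum.inr id a) (Sum.map Sum.inr id b) := by
    intro a b h
    rw [hΦ2, hΦ2] at h
    exact Or.inr ⟨i2.ne (fun hab => h.ne (by rw [hab])), a, b, h, rfl, rfl⟩
  have nomix : ∀ (a b : U), ¬ K.Adj a.1 (σ b.1) := by
    intro a b h
    have h1 := hno _ _ (hK h) a.2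
    exact absurd (hσneg b) (not_lt.2 h1)
  let iso : glue (K.comap φ) (K.comap (σ ∘ φ)) ≃g K :=
    { Equiv.ofBijective Φ hΦ with
      map_rel_iff' := by
        intro x y
        change K.Adj (Φ x) (Φ y) ↔ (glue (K.comap φ) (K.comap (σ ∘ φ))).Adj x y
        constructor
        · intro h
          rcases x with (a | a) | a <;> rcases y with (b | b) | b
          · exact first (Sum.inl a) (Sum.inl b) h
          · exact absurd h (nomix a b)
          · exact first (Sum.inl a) (Sum.inr b) h
          · exact absurd h.symm (nomix b a)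
          · exact second (Sum.inl a) (Sum.inl b) h
          · exact second (Sum.inl a) (Sum.inr b) h
          · exact first (Sum.inr a) (Sum.inl b) h
          · exact second (Sum.inr a) (Sum.inl b) h
          · exact first (Sum.inr a) (Sum.inr b) h
        · rintro (⟨_, a, b, hab, rfl, rfl⟩ | ⟨_, a, b, hab, rfl, rfl⟩)
          · rw [hΦ1, hΦ1]
            exact hab
          · rw [hΦ2, hΦ2]
            exact hab }
  exact hp.of_iso iso.symm

/-- **Reflection positivity** for a subgraph `K` of a mirror symmetric plane graph. -/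
theorem fold_ineq {V : Type} [Finite V] (G : SimpleGraph V) (f : V → ℝ × ℝ)
    (γ : V → V → ℝ → ℝ × ℝ) (h : MirrorDrawing G f γ) (σ : V → V)
    (hσ : ∀ v, f (σ v) = ((f v).1, -(f v).2)) (hadj : ∀ u v, G.Adj u v → G.Adj (σ u) (σ v))
    (K : SimpleGraph V) (hK : K ≤ G) (q : ℝ) (hq : 4 ≤ q) (hne : (chr K).eval q ≠ 0) :
    0 < (chr (fu (fun v => (f v).2) σ K)).eval q ∧
      0 < (chr (fl (fun v => (f v).2) σ K)).eval q := by
  have hf := h.drawing.1
  have hσσ : ∀ v, σ (σ v) = v := by
    intro v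
    apply hf
    rw [hσ, hσ]
    simp
  have hσ0 : ∀ v, (f v).2 = 0 → σ v = v := by
    intro v hv
    apply hf
    rw [hσ]
    exact Prod.ext rfl (by simp [hv])
  have hσ2 : ∀ v, (f (σ v)).2 = -(f v).2 := by
    intro v
    rw [hσ]
  have hadj' : ∀ u v, G.Adj (σ u) (σ v) → G.Adj u v := by
    intro u v h
    have := hadj _ _ h
    rwa [hσσ, hσσ] at this
  obtain ⟨U, hU, n, φ, hφ, hc, hg⟩ := halves G f γ h σ hσ hadj
  have hz : ∀ a, (f (φ a)).2 ≤ 0 → σ (φ a) = φ a := fun a ha => hσ0 _ (le_antisymm ha (hφ a))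
  set s : V → ℝ := fun v => (f v).2 with hs
  have hs2 : ∀ v, s (σ v) = - s v := hσ2
  have hfu : fu s σ K ≤ G := by
    rintro x y (⟨_, _, h3⟩ | ⟨_, _, h3⟩)
    · exact hK h3
    · exact hadj' _ _ (hK h3)
  have hfl : fl s σ K ≤ G := by
    rintro x y (⟨_, _, h3⟩ | ⟨_, _, h3⟩)
    · exact hK h3
    · exact hadj' _ _ (hK h3)
  have e1 : (fu s σ K).comap φ = K.comap φ := by
    ext a b
    constructor
    · rintro (⟨_, _, h3⟩ | ⟨h1, h2, h3⟩)
      · exact h3
      · rw [hz a h1, hz b h2] at h3
        exact h3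
    · intro h3
      exact Or.inl ⟨hφ a, hφ b, h3⟩
  have e2 : (fu s σ K).comap (σ ∘ φ) = K.comap φ := by
    ext a b
    constructor
    · rintro (⟨h1, h2, h3⟩ | ⟨h1, h2, h3⟩)
      · have h1' : s (φ a) ≤ 0 := by
          have : 0 ≤ s (σ (φ a)) := h1
          rw [hs2] at this
          linarith
        have h2' : s (φ b) ≤ 0 := by
          have : 0 ≤ s (σ (φ b)) := h2
          rw [hs2] at this
          linarith
        have h3' : K.Adj (σ (φ a)) (σ (φ b)) := h3
        rw [hz a h1', hz b h2'] at h3'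
        exact h3'
      · have h3' : K.Adj (σ (σ (φ a))) (σ (σ (φ b))) := h3
        rw [hσσ, hσσ] at h3'
        exact h3'
    · intro h3
      refine Or.inr ⟨?_, ?_, ?_⟩
      · change s (σ (φ a)) ≤ 0
        rw [hs2]
        have := hφ a
        simpa [hs] using this
      · change s (σ (φ b)) ≤ 0
        rw [hs2]
        have := hφ b
        simpa [hs] using this
      · change K.Adj (σ (σ (φ a))) (σ (σ (φ b)))
        rw [hσσ, hσσ]
        exact h3
  have e3 : (fl s σ K).comap φ = K.comap (σ ∘ φ) := by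
    ext a b
    constructor
    · rintro (⟨h1, h2, h3⟩ | ⟨h1, h2, h3⟩)
      · change K.Adj (σ (φ a)) (σ (φ b))
        rw [hz a h1, hz b h2]
        exact h3
      · exact h3
    · intro h3
      exact Or.inr ⟨hφ a, hφ b, h3⟩
  have e4 : (fl s σ K).comap (σ ∘ φ) = K.comap (σ ∘ φ) := by
    ext a b
    constructor
    · rintro (⟨h1, h2, h3⟩ | ⟨h1, h2, h3⟩)
      · exact h3
      · have h1' : s (φ a) ≤ 0 := by
          have : 0 ≤ s (σ (φ a)) := h1
          rw [hs2] at this
          linarith
        have h2' : s (φ b) ≤ 0 := by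
          have : 0 ≤ s (σ (φ b)) := h2
          rw [hs2] at this
          linarith
        have h3' : K.Adj (σ (σ (φ a))) (σ (σ (φ b))) := h3
        rw [hσσ, hσσ] at h3'
        change K.Adj (σ (φ a)) (σ (φ b))
        rw [hz a h1', hz b h2']
        exact h3'
    · intro h3
      refine Or.inl ⟨?_, ?_, h3⟩
      · change s (σ (φ a)) ≤ 0
        rw [hs2]
        have := hφ a
        simpa [hs] using this
      · change s (σ (φ b)) ≤ 0
        rw [hs2]
        have := hφ b
        simpa [hs] using this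
  have hcN : Crossless (K.comap φ) := crossless_mono (fun a b hab => hK hab) hc
  have hcM : Crossless (K.comap (σ ∘ φ)) :=
    crossless_mono (fun a b hab => hadj' _ _ (hK hab)) hc
  have g1 := hg (fu s σ K) hfu _ (chr_spec _)
  rw [e1, e2] at g1
  have g2 := hg (fl s σ K) hfl _ (chr_spec _)
  rw [e3, e4] at g2
  have g3 := hg K hK _ (chr_spec _)
  obtain ⟨h1, h2, h3⟩ := two_ineq _ _ hcN hcM _ _ _ g1 g3 g2 q hq
  have h4 : 0 < (chr K).eval q ^ 2 := by positivity
  have h5 := lt_of_lt_of_le h4 h3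
  constructor
  · rcases lt_or_eq_of_le h1 with h | h
    · exact h
    · rw [← h, zero_mul] at h5
      exact absurd h5 (lt_irrefl _)
  · rcases lt_or_eq_of_le h2 with h | h
    · exact h
    · rw [← h, mul_zero] at h5
      exact absurd h5 (lt_irrefl _)

end Pool.Agent.Y865.KS
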